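import Pool.Agent.Lib.MP_1dedaf_gt.SC.Final
import Pool.Agent.Lib.MP_1dedaf_gt.SC.Inv
import Pool.Agent.Lib.MP_1dedaf_gt.ED.D

/-!
# The logarithmic Brunn-Minkowski inequality with its equality cases, in `R^3` with one involution,
and in `R^n = R^2 × R^(n-2)` for bodies with `n - 2` mirrors and centered planar sections
-/

set_option autoImplicit false

open MeasureTheory
open scoped Pointwise

namespace Pool.Agent.Results.MP_1dedaf_gt.MirrorSections

/-- A convex body of `R^n`. -/
structure IsConvexBody {n : ℕ} (K : Set (EuclideanSpace ℝ (Fin n))) : Prop where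
  convex : Convex ℝ K
  compact : IsCompact K
  interior_nonempty : (interior K).Nonempty

/-- The support function `h_K(u) = max {<y, u> : y ∈ K}`. -/
noncomputable def suppFn {n : ℕ} (K : Set (EuclideanSpace ℝ (Fin n)))
    (u : EuclideanSpace ℝ (Fin n)) : ℝ :=
  sSup ((fun y => inner ℝ y u) '' K)

/-- The logarithmic combination
`(1 - t) K +₀ t C = {x : <x, u> ≤ h_K(u)^(1-t) h_C(u)^t for all unit vectors u}`. -/
def logComb {n : ℕ} (t : ℝ) (K C : Set (EuclideanSpace ℝ (Fin n))) :
    Set (EuclideanSpace ℝ (Fin n)) :=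
  {x | ∀ u : EuclideanSpace ℝ (Fin n), ‖u‖ = 1 →
    inner ℝ x u ≤ (suppFn K u) ^ (1 - t) * (suppFn C u) ^ t}

/-- The volume. -/
noncomputable def vol {n : ℕ} (K : Set (EuclideanSpace ℝ (Fin n))) : ℝ := (volume K).toReal

/-- The logarithmic Brunn-Minkowski inequality for `K` and `C`, for all `t` in `(0, 1)`. -/
def LogBM {n : ℕ} (K C : Set (EuclideanSpace ℝ (Fin n))) : Prop :=
  ∀ t : ℝ, 0 < t → t < 1 → vol K ^ (1 - t) * vol C ^ t ≤ vol (logComb t K C)

/-- The equality cases of the question: `K = K_1 + ... + K_m`, `C = C_1 + ... + C_m` with nonempty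
compact convex sets `K_i` of dimension at least one, whose dimensions have the sum `n`, and
dilates `C_i` of `K_i`. -/
def Decomposes {n : ℕ} (K C : Set (EuclideanSpace ℝ (Fin n))) : Prop :=
  ∃ m : ℕ, ∃ Ks Cs : Fin m → Set (EuclideanSpace ℝ (Fin n)),
    (∀ i, Convex ℝ (Ks i) ∧ IsCompact (Ks i) ∧ (Ks i).Nonempty ∧
      1 ≤ Module.finrank ℝ (affineSpan ℝ (Ks i)).direction) ∧
    (∑ i, Module.finrank ℝ (affineSpan ℝ (Ks i)).direction) = n ∧
    K = ∑ i, Ks i ∧ C = ∑ i, Cs i ∧
    (∀ i, ∃ r : ℝ, 0 < r ∧ Cs i = r • Ks i)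

/-- Equality holds (for any `t` in `(0, 1)`) if and only if `K` and `C` decompose as in the
question. -/
def HasEqualityCases {n : ℕ} (K C : Set (EuclideanSpace ℝ (Fin n))) : Prop :=
  ∀ t : ℝ, 0 < t → t < 1 →
    (vol (logComb t K C) = vol K ^ (1 - t) * vol C ^ t ↔ Decomposes K C)

/-- `K` is symmetric about the origin and invariant under `R`. -/
structure IsSymmetric (R : EuclideanSpace ℝ (Fin 3) →ₗ[ℝ] EuclideanSpace ℝ (Fin 3))
    (K : Set (EuclideanSpace ℝ (Fin 3))) : Prop where
  neg_mem : ∀ x ∈ K, -x ∈ K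
  map_mem : ∀ x ∈ K, R x ∈ K

/-- `R` is a linear involution other than `1` and `-1`: a mirror (`z → -z` in suitable linear
coordinates) or a half-turn (`(x, y) → (-x, -y)` in suitable linear coordinates). -/
structure IsInvolution (R : EuclideanSpace ℝ (Fin 3) →ₗ[ℝ] EuclideanSpace ℝ (Fin 3)) : Prop where
  involutive : ∀ x, R (R x) = x
  ne_one : ∃ x, R x ≠ x
  ne_neg_one : ∃ x, R x ≠ -x

/-- The point `(x, y)` of `R^2 × R^k`. -/
def pt {k : ℕ} (x : EuclideanSpace ℝ (Fin 2)) (y : Fin k → ℝ) : EuclideanSpace ℝ (Fin (2 + k)) :=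
  WithLp.toLp 2 (Fin.append x.ofLp y)

/-- The planar section `K(y) = {x ∈ R^2 : (x, y) ∈ K}`. -/
def planarSection {k : ℕ} (K : Set (EuclideanSpace ℝ (Fin (2 + k)))) (y : Fin k → ℝ) :
    Set (EuclideanSpace ℝ (Fin 2)) :=
  {x | pt x y ∈ K}

/-- `K` is invariant under the `k` reflections `y_j → -y_j`, and all its planar sections are
centered at the origin. -/
structure HasMirrorsAndCenteredSections {k : ℕ} (K : Set (EuclideanSpace ℝ (Fin (2 + k)))) :
    Prop where
  mirrors : ∀ x y, pt x y ∈ K → ∀ j : Fin k, pt x (Function.update y j (-(y j))) ∈ K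
  centered : ∀ y, ∫ x in planarSection K y, x = 0

private lemma good_of {k : ℕ} {K : Set (EuclideanSpace ℝ (Fin (2 + k)))} (hc : Convex ℝ K)
    (hk : IsCompact K) (h : HasMirrorsAndCenteredSections K) :
    Pool.Agent.Lib.MP_1dedaf_gt.SC.Good k K := by
  refine ⟨hc, hk, ?_, h.centered⟩
  intro p hp j
  have h1 : pt (WithLp.toLp 2 (fun i => p (Fin.castAdd k i))) (fun i => p (Fin.natAdd 2 i)) = p := by
    ext i
    refine Fin.addCases (fun a => ?_) (fun b => ?_) i
    · show Fin.append (fun i => p (Fin.castAdd k i)) (fun i => p (Fin.natAdd 2 i))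
        (Fin.castAdd k a) = p (Fin.castAdd k a)
      rw [Fin.append_left]
    · show Fin.append (fun i => p (Fin.castAdd k i)) (fun i => p (Fin.natAdd 2 i))
        (Fin.natAdd 2 b) = p (Fin.natAdd 2 b)
      rw [Fin.append_right]
  have h2 := h.mirrors (WithLp.toLp 2 (fun i => p (Fin.castAdd k i))) (fun i => p (Fin.natAdd 2 i))
    (by rw [h1]; exact hp) j
  have h3 : pt (WithLp.toLp 2 (fun i => p (Fin.castAdd k i)))
      (Function.update (fun i => p (Fin.natAdd 2 i)) j (-(p (Fin.natAdd 2 j)))) =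
      WithLp.toLp 2 (Function.update p.ofLp (Fin.natAdd 2 j) (-(p (Fin.natAdd 2 j)))) := by
    ext i
    refine Fin.addCases (fun a => ?_) (fun b => ?_) i
    · refine (Fin.append_left _ _ a).trans ?_
      show p (Fin.castAdd k a) = Function.update p.ofLp _ _ _
      rw [Function.update_of_ne]
      intro h4
      have h5 := congrArg Fin.val h4
      simp only [Fin.val_castAdd, Fin.val_natAdd] at h5
      omega
    · refine (Fin.append_right _ _ b).trans ?_
      show Function.update (fun i => p (Fin.natAdd 2 i)) j _ b = Function.update p.ofLp _ _ _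
      by_cases hb : b = j
      · subst hb
        rw [Function.update_self, Function.update_self]
      · rw [Function.update_of_ne hb, Function.update_of_ne]
        intro h4
        apply hb
        exact (Fin.natAdd_injective _ _ h4)
  rw [h3] at h2
  exact h2

/-- **Theorem.** The logarithmic Brunn-Minkowski inequality and the equality cases of the question
hold (1) for all pairs of origin-symmetric convex bodies of `R^3` which are invariant under one
linear involution `R` (`R ≠ 1`, `R ≠ -1`: a mirror or a half-turn); (2) for all `k ≥ 1` and all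
pairs of convex bodies of `R^(2+k)` which, in some common linear coordinates, are invariant under
the last `k` coordinate reflections and have all their sections parallel to the plane of the first
two coordinates centered. -/
theorem result :
    (∀ K C : Set (EuclideanSpace ℝ (Fin 3)), IsConvexBody K → IsConvexBody C →
      ∀ R, IsInvolution R → IsSymmetric R K → IsSymmetric R C →
        LogBM K C ∧ HasEqualityCases K C) ∧
    (∀ k : ℕ, 1 ≤ k →
      ∀ K C : Set (EuclideanSpace ℝ (Fin (2 + k))), IsConvexBody K → IsConvexBody C →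
      ∀ P : EuclideanSpace ℝ (Fin (2 + k)) ≃L[ℝ] EuclideanSpace ℝ (Fin (2 + k)),
        HasMirrorsAndCenteredSections (P '' K) → HasMirrorsAndCenteredSections (P '' C) →
        LogBM K C ∧ HasEqualityCases K C) := by
  refine ⟨?_, ?_⟩
  · intro K C ⟨hK1, hK2, hKi⟩ ⟨hC1, hC2, hCi⟩ R ⟨hR2, hR1, hR3⟩ ⟨hK3, hRK⟩ ⟨hC3, hRC⟩
    obtain ⟨P, gK, gC⟩ : ∃ P : EuclideanSpace ℝ (Fin 3) ≃L[ℝ] EuclideanSpace ℝ (Fin (2 + 1)),
        Pool.Agent.Lib.MP_1dedaf_gt.SC.Good 1 (P '' K) ∧
        Pool.Agent.Lib.MP_1dedaf_gt.SC.Good 1 (P '' C) := by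
      obtain ⟨a, u, hua, hR | hR⟩ := Pool.Agent.Lib.MP_1dedaf_gt.SC.inv_form
        (R := LinearMap.toContinuousLinearMap R) hR2 hR1 hR3
      · obtain ⟨P, hP⟩ := Pool.Agent.Lib.MP_1dedaf_gt.SC.ref_form (R := R) ⟨a, u, hua, hR⟩
        exact ⟨P, Pool.Agent.Lib.MP_1dedaf_gt.SC.good_of_symm hK1 hK2 hK3 hRK P hP,
          Pool.Agent.Lib.MP_1dedaf_gt.SC.good_of_symm hC1 hC2 hC3 hRC P hP⟩
      · obtain ⟨P, hP⟩ := Pool.Agent.Lib.MP_1dedaf_gt.SC.ref_form (R := fun x => -(R x))
          ⟨a, u, hua, fun x => by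
            have h1 : R x = -(x - inner ℝ u x • a) := hR x
            rw [h1, neg_neg]⟩
        exact ⟨P, Pool.Agent.Lib.MP_1dedaf_gt.SC.good_of_symm hK1 hK2 hK3
            (fun x hx => hK3 _ (hRK x hx)) P hP,
          Pool.Agent.Lib.MP_1dedaf_gt.SC.good_of_symm hC1 hC2 hC3
            (fun x hx => hC3 _ (hRC x hx)) P hP⟩
    refine ⟨?_, ?_⟩
    · intro t ht0 ht1
      exact Pool.Agent.Lib.MP_1dedaf_gt.SC.main (k := 1) ht0 ht1 hK2 hC2 P gK gC
    · intro t ht0 ht1
      exact Pool.Agent.Lib.MP_1dedaf_gt.EG.eq_iff (k := 1) ht0 ht1 hK1 hK2 hKi hC2 hCi P gK gC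
  · intro k _ K C ⟨hK1, hK2, hKi⟩ ⟨hC1, hC2, hCi⟩ P hK hC
    have gK := good_of (hK1.linear_image P.toLinearMap) (hK2.image P.continuous) hK
    have gC := good_of (hC1.linear_image P.toLinearMap) (hC2.image P.continuous) hC
    refine ⟨?_, ?_⟩
    · intro t ht0 ht1
      exact Pool.Agent.Lib.MP_1dedaf_gt.SC.main ht0 ht1 hK2 hC2 P gK gC
    · intro t ht0 ht1
      exact Pool.Agent.Lib.MP_1dedaf_gt.EG.eq_iff ht0 ht1 hK1 hK2 hKi hC2 hCi P gK gC

end Pool.Agent.Results.MP_1dedaf_gt.MirrorSections
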