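import Pool.Agent.Lib.MP_1dedaf_gt.BL.D

/-!
# The logarithmic Brunn-Minkowski inequality and its equality cases for bodies built from planar
centered bodies by block steps
-/

set_option autoImplicit false

open MeasureTheory
open scoped Pointwise

namespace Pool.Agent.Results.MP_1dedaf_gt.PlanarBlocks

/-- A convex body of `R^n`. -/
structure IsConvexBody {n : ℕ} (K : Set (EuclideanSpace ℝ (Fin n))) : Prop where
  convex : Convex ℝ K
  compact : IsCompact K
  interior_nonempty : (interior K).Nonempty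

/-- The support function `h_K(u) = max {<y, u> : y ∈ K}`. -/
noncomputable def suppFn {n : ℕ} (K : Set (EuclideanSpace ℝ (Fin n)))
    (u : EuclideanSpace ℝ (Fin n)) : ℝ :=
  sSup ((fun y => inner ℝ y u) '' K)

/-- The logarithmic combination
`(1 - t) K +₀ t C = {x : <x, u> ≤ h_K(u)^(1-t) h_C(u)^t for all unit vectors u}`. -/
def logComb {n : ℕ} (t : ℝ) (K C : Set (EuclideanSpace ℝ (Fin n))) :
    Set (EuclideanSpace ℝ (Fin n)) :=
  {x | ∀ u : EuclideanSpace ℝ (Fin n), ‖u‖ = 1 →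
    inner ℝ x u ≤ (suppFn K u) ^ (1 - t) * (suppFn C u) ^ t}

/-- The volume. -/
noncomputable def vol {n : ℕ} (K : Set (EuclideanSpace ℝ (Fin n))) : ℝ := (volume K).toReal

/-- The logarithmic Brunn-Minkowski inequality for `K` and `C`, for all `t` in `(0, 1)`. -/
def LogBM {n : ℕ} (K C : Set (EuclideanSpace ℝ (Fin n))) : Prop :=
  ∀ t : ℝ, 0 < t → t < 1 → vol K ^ (1 - t) * vol C ^ t ≤ vol (logComb t K C)

/-- The equality cases of the question: `K = K_1 + ... + K_m`, `C = C_1 + ... + C_m` with nonempty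
compact convex sets `K_i` of dimension at least one, whose dimensions have the sum `n`, and
dilates `C_i` of `K_i`. -/
def Decomposes {n : ℕ} (K C : Set (EuclideanSpace ℝ (Fin n))) : Prop :=
  ∃ m : ℕ, ∃ Ks Cs : Fin m → Set (EuclideanSpace ℝ (Fin n)),
    (∀ i, Convex ℝ (Ks i) ∧ IsCompact (Ks i) ∧ (Ks i).Nonempty ∧
      1 ≤ Module.finrank ℝ (affineSpan ℝ (Ks i)).direction) ∧
    (∑ i, Module.finrank ℝ (affineSpan ℝ (Ks i)).direction) = n ∧
    K = ∑ i, Ks i ∧ C = ∑ i, Cs i ∧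
    (∀ i, ∃ r : ℝ, 0 < r ∧ Cs i = r • Ks i)

/-- Equality holds (for any `t` in `(0, 1)`) if and only if `K` and `C` decompose as in the
question. -/
def HasEqualityCases {n : ℕ} (K C : Set (EuclideanSpace ℝ (Fin n))) : Prop :=
  ∀ t : ℝ, 0 < t → t < 1 →
    (vol (logComb t K C) = vol K ^ (1 - t) * vol C ^ t ↔ Decomposes K C)

/-- The point `(x, y)` of `R^N × R^d`. -/
def pt {N d : ℕ} (x : EuclideanSpace ℝ (Fin N)) (y : EuclideanSpace ℝ (Fin d)) :
    EuclideanSpace ℝ (Fin (N + d)) :=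
  WithLp.toLp 2 (Fin.append x.ofLp y.ofLp)

/-- The section `K(y) = {x ∈ R^N : (x, y) ∈ K}`. -/
def sectionAt {N d : ℕ} (K : Set (EuclideanSpace ℝ (Fin (N + d))))
    (y : EuclideanSpace ℝ (Fin d)) : Set (EuclideanSpace ℝ (Fin N)) :=
  {x | pt x y ∈ K}

/-- The block bodies over the classes `X` and `Y`: the convex bodies `K` of `R^N × R^d` for which
there is a body `S` of `Y` such that membership of `(x, y)` in `K` depends only on `x` and on the
gauge of `y` with respect to `S`, and whose sections `K(y)` with interior points are in `X`. -/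
def BlockBodies {N d : ℕ} (X : Set (EuclideanSpace ℝ (Fin N)) → Prop)
    (Y : Set (EuclideanSpace ℝ (Fin d)) → Prop) (K : Set (EuclideanSpace ℝ (Fin (N + d)))) : Prop :=
  IsConvexBody K ∧
  (∃ S, Y S ∧ ∀ x y y', gauge S y' = gauge S y → pt x y ∈ K → pt x y' ∈ K) ∧
  ∀ y, (interior (sectionAt K y)).Nonempty → X (sectionAt K y)

/-- `IsBlockClass X m`: the class `X` of bodies of `R^n` is obtained from the symmetric intervals
of `R` and the centered convex bodies of `R^2` by block steps and linear bijections; `m` is the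
number of planar blocks. -/
inductive IsBlockClass : {n : ℕ} → (Set (EuclideanSpace ℝ (Fin n)) → Prop) → ℕ → Prop
  | segments : IsBlockClass (n := 1) (fun K => IsConvexBody K ∧ ∀ x ∈ K, -x ∈ K) 0
  | planar : IsBlockClass (n := 2) (fun K => IsConvexBody K ∧ ∫ x in K, x = 0) 1
  | blocks {N d a b : ℕ} {X : Set (EuclideanSpace ℝ (Fin N)) → Prop}
      {Y : Set (EuclideanSpace ℝ (Fin d)) → Prop} :
      IsBlockClass X a → IsBlockClass Y b → IsBlockClass (BlockBodies X Y) (a + b)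
  | linear {n a : ℕ} {X : Set (EuclideanSpace ℝ (Fin n)) → Prop}
      (P : EuclideanSpace ℝ (Fin n) ≃L[ℝ] EuclideanSpace ℝ (Fin n)) :
      IsBlockClass X a → IsBlockClass (fun K => X (P '' K)) a

/-- `U ⊆ R^2` is unconditional. -/
def IsUnconditional (U : Set (EuclideanSpace ℝ (Fin 2))) : Prop :=
  ∀ a b : ℝ, !₂[a, b] ∈ U → !₂[-a, b] ∈ U ∧ !₂[a, -b] ∈ U

/-- The unconditional sum `U[K₁, K₂]`: all `(x, y)` for which the point of `R^2` with the
coordinates `‖x‖` (gauge of `K₁`) and `‖y‖` (gauge of `K₂`) lies in `U`. For the unit ball `U` of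
`l_p` it is the `l_p` sum. -/
def unconditionalSum {N d : ℕ} (U : Set (EuclideanSpace ℝ (Fin 2)))
    (K₁ : Set (EuclideanSpace ℝ (Fin N))) (K₂ : Set (EuclideanSpace ℝ (Fin d))) :
    Set (EuclideanSpace ℝ (Fin (N + d))) :=
  {p | ∃ x y, p = pt x y ∧ !₂[gauge K₁ x, gauge K₂ y] ∈ U}

private lemma body_of {n : ℕ} {K : Set (EuclideanSpace ℝ (Fin n))} (h : IsConvexBody K) :
    Pool.Agent.Lib.MP_1dedaf_gt.BL.Body K := ⟨h.1, h.2, h.3⟩

private lemma of_body {n : ℕ} {K : Set (EuclideanSpace ℝ (Fin n))}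
    (h : Pool.Agent.Lib.MP_1dedaf_gt.BL.Body K) : IsConvexBody K := ⟨h.1, h.2, h.3⟩

private lemma xb_iff {N d : ℕ} {X : Set (EuclideanSpace ℝ (Fin N)) → Prop}
    {Y : Set (EuclideanSpace ℝ (Fin d)) → Prop} {K : Set (EuclideanSpace ℝ (Fin (N + d)))} :
    BlockBodies X Y K ↔ Pool.Agent.Lib.MP_1dedaf_gt.BL.XB X Y K :=
  ⟨fun h => ⟨body_of h.1, h.2⟩, fun h => ⟨of_body h.1, h.2⟩⟩

private lemma thm_of {n m : ℕ} {X : Set (EuclideanSpace ℝ (Fin n)) → Prop}
    (h : IsBlockClass X m) : 0 < n ∧ Pool.Agent.Lib.MP_1dedaf_gt.BL.Thm X := by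
  induction h with
  | segments =>
    exact ⟨Nat.one_pos, Pool.Agent.Lib.MP_1dedaf_gt.BL.thm_seg.sub fun K h => ⟨body_of h.1, h.2⟩⟩
  | planar =>
    exact ⟨Nat.two_pos, Pool.Agent.Lib.MP_1dedaf_gt.BL.thm_pl.sub fun K h => ⟨body_of h.1, h.2⟩⟩
  | blocks _ _ ih₁ ih₂ =>
    exact ⟨Nat.add_pos_left ih₁.1 _,
      (Pool.Agent.Lib.MP_1dedaf_gt.BL.thm_XB ih₂.1 ih₁.2 ih₂.2).sub fun K h => xb_iff.1 h⟩
  | linear P _ ih => exact ⟨ih.1, Pool.Agent.Lib.MP_1dedaf_gt.BL.thm_lin ih.2 P⟩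

private lemma dil_of {n m : ℕ} {X : Set (EuclideanSpace ℝ (Fin n)) → Prop}
    (h : IsBlockClass X m) : ∀ K, X K → ∀ r : ℝ, 0 < r → X (r • K) := by
  induction h with
  | segments =>
    intro K h r hr
    have h1 := Pool.Agent.Lib.MP_1dedaf_gt.BL.dil_seg K ⟨body_of h.1, h.2⟩ r hr
    exact ⟨of_body h1.1, h1.2⟩
  | planar =>
    intro K h r hr
    have h1 := Pool.Agent.Lib.MP_1dedaf_gt.BL.dil_pl K ⟨body_of h.1, h.2⟩ r hr
    exact ⟨of_body h1.1, h1.2⟩
  | blocks _ _ ih₁ _ =>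
    intro K h r hr
    exact xb_iff.2 (Pool.Agent.Lib.MP_1dedaf_gt.BL.dil_XB ih₁ K (xb_iff.1 h) r hr)
  | linear P _ ih =>
    intro K h r hr
    have h1 := ih _ h r hr
    have h2 : P '' (r • K) = r • (P '' K) := by
      rw [← Set.image_smul, ← Set.image_smul, Set.image_image, Set.image_image]
      simp only [map_smul]
    show _
    rw [h2]
    exact h1

private lemma usum_eq {N d : ℕ} (U : Set (EuclideanSpace ℝ (Fin 2)))
    (K₁ : Set (EuclideanSpace ℝ (Fin N))) (K₂ : Set (EuclideanSpace ℝ (Fin d))) :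
    unconditionalSum U K₁ K₂ = Pool.Agent.Lib.MP_1dedaf_gt.BL.usum U K₁ K₂ := by
  ext p
  constructor
  · rintro ⟨x, y, rfl, h⟩
    show !₂[gauge K₁ (Pool.Agent.Lib.MP_1dedaf_gt.BL.fst (Pool.Agent.Lib.MP_1dedaf_gt.BL.app x y)),
      gauge K₂ (Pool.Agent.Lib.MP_1dedaf_gt.BL.snd
        (Pool.Agent.Lib.MP_1dedaf_gt.BL.app x y))] ∈ U
    rw [Pool.Agent.Lib.MP_1dedaf_gt.BL.fst_app, Pool.Agent.Lib.MP_1dedaf_gt.BL.snd_app]
    exact h
  · intro h
    exact ⟨_, _, (Pool.Agent.Lib.MP_1dedaf_gt.BL.app_eta p).symm, h⟩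

/-- **Theorem.** (1) The logarithmic Brunn-Minkowski inequality and the equality cases of the
question hold for all pairs of bodies of the same block class with at least two planar blocks.
(2) They hold for all pairs of unconditional sums `U[K₁, K₂]`, `V[C₁, C₂]` with arbitrary
unconditional convex bodies `U`, `V` of `R^2` and `K₁`, `C₁` in one block class, `K₂`, `C₂` in one
block class, with at least two planar blocks together: for instance, in `R^4`, for all centered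
convex bodies `K₁, K₂, C₁, C₂` of `R^2`. -/
theorem result :
    (∀ (n m : ℕ) (X : Set (EuclideanSpace ℝ (Fin n)) → Prop), IsBlockClass X m → 2 ≤ m →
      ∀ K C, X K → X C → LogBM K C ∧ HasEqualityCases K C) ∧
    (∀ (N d a b : ℕ) (X : Set (EuclideanSpace ℝ (Fin N)) → Prop)
      (Y : Set (EuclideanSpace ℝ (Fin d)) → Prop), IsBlockClass X a → IsBlockClass Y b →
      2 ≤ a + b → ∀ U V, IsConvexBody U → IsConvexBody V → IsUnconditional U →
      IsUnconditional V → ∀ K₁ C₁ K₂ C₂, X K₁ → X C₁ → Y K₂ → Y C₂ →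
        LogBM (unconditionalSum U K₁ K₂) (unconditionalSum V C₁ C₂) ∧
        HasEqualityCases (unconditionalSum U K₁ K₂) (unconditionalSum V C₁ C₂)) := by
  have key : ∀ (n : ℕ) (X : Set (EuclideanSpace ℝ (Fin n)) → Prop),
      Pool.Agent.Lib.MP_1dedaf_gt.BL.Thm X → ∀ K C, X K → X C →
        LogBM K C ∧ HasEqualityCases K C := by
    intro n X hX K C hK hC
    exact ⟨fun t ht0 ht1 => (Pool.Agent.Lib.MP_1dedaf_gt.BL.eq_iff_thm hX ht0 ht1 hK hC).1,
      fun t ht0 ht1 => (Pool.Agent.Lib.MP_1dedaf_gt.BL.eq_iff_thm hX ht0 ht1 hK hC).2⟩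
  refine ⟨fun n m X hX _ K C hK hC => key n X (thm_of hX).2 K C hK hC, ?_⟩
  intro N d a b X Y hX hY _ U V hU hV uU uV K₁ C₁ K₂ C₂ hK₁ hC₁ hK₂ hC₂
  have hX' := thm_of hX
  have hY' := thm_of hY
  rw [usum_eq, usum_eq]
  exact key _ _ (Pool.Agent.Lib.MP_1dedaf_gt.BL.thm_XB hY'.1 hX'.2 hY'.2) _ _
    (Pool.Agent.Lib.MP_1dedaf_gt.BL.usum_XB hX'.1 hX'.2 hY'.2 (dil_of hX) (body_of hU) uU hK₁ hK₂)
    (Pool.Agent.Lib.MP_1dedaf_gt.BL.usum_XB hX'.1 hX'.2 hY'.2 (dil_of hX) (body_of hV) uV hC₁ hC₂)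

end Pool.Agent.Results.MP_1dedaf_gt.PlanarBlocks
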