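import Pool.Agent.Lib.MP_1dedaf_gt.LB.F2
import Pool.Agent.Lib.MP_1dedaf_gt.DK.EP.FIN

/-!
# The logarithmic Brunn-Minkowski inequality for all centered planar convex bodies, with the equality cases
-/

set_option autoImplicit false

open MeasureTheory
open scoped Pointwise

namespace Pool.Agent.Results.MP_1dedaf_gt.PlanarLogBM

/-- The support function `h_K(u) = max {<y, u> : y ∈ K}`. -/
noncomputable def suppFn (K : Set (EuclideanSpace ℝ (Fin 2))) (u : EuclideanSpace ℝ (Fin 2)) : ℝ :=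
  sSup ((fun y => inner ℝ y u) '' K)

/-- The logarithmic combination
`(1 - t) K +₀ t C = {x : <x, u> ≤ h_K(u)^(1-t) h_C(u)^t for all unit vectors u}`. -/
def logComb (t : ℝ) (K C : Set (EuclideanSpace ℝ (Fin 2))) : Set (EuclideanSpace ℝ (Fin 2)) :=
  {x | ∀ u : EuclideanSpace ℝ (Fin 2), ‖u‖ = 1 →
    inner ℝ x u ≤ (suppFn K u) ^ (1 - t) * (suppFn C u) ^ t}

/-- The area. -/
noncomputable def area (K : Set (EuclideanSpace ℝ (Fin 2))) : ℝ := (volume K).toReal

/-- The equality cases of the question: `K = K_1 + ... + K_m`, `C = C_1 + ... + C_m` with nonempty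
compact convex sets `K_i` of dimension at least one, whose dimensions have the sum `2`, and
dilates `C_i` of `K_i`. -/
def Decomposes (K C : Set (EuclideanSpace ℝ (Fin 2))) : Prop :=
  ∃ m : ℕ, ∃ Ks Cs : Fin m → Set (EuclideanSpace ℝ (Fin 2)),
    (∀ i, Convex ℝ (Ks i) ∧ IsCompact (Ks i) ∧ (Ks i).Nonempty ∧
      1 ≤ Module.finrank ℝ (affineSpan ℝ (Ks i)).direction) ∧
    (∑ i, Module.finrank ℝ (affineSpan ℝ (Ks i)).direction) = 2 ∧
    K = ∑ i, Ks i ∧ C = ∑ i, Cs i ∧
    (∀ i, ∃ r : ℝ, 0 < r ∧ Cs i = r • Ks i)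

/-- **Q1 for `n = 2`**: the logarithmic Brunn-Minkowski inequality for all pairs of centered convex
bodies in the plane and all `t` in `(0, 1)`, with the equality cases as in the question. -/
theorem result :
    ∀ t : ℝ, 0 < t → t < 1 →
    ∀ K C : Set (EuclideanSpace ℝ (Fin 2)),
      Convex ℝ K → IsCompact K → (interior K).Nonempty →
      (∫ x in K, x ∂volume) = 0 →
      Convex ℝ C → IsCompact C → (interior C).Nonempty →
      (∫ x in C, x ∂volume) = 0 →
      (area K ^ (1 - t) * area C ^ t ≤ area (logComb t K C)) ∧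
      (area (logComb t K C) = area K ^ (1 - t) * area C ^ t ↔ Decomposes K C) := by
  intro t ht0 ht1 K C hc hK hi h0 hc' hC hi' h0'
  exact Pool.Agent.Lib.MP_1dedaf_gt.LB.planar_result Pool.Agent.Lib.MP_1dedaf_gt.DK.ker ht0 ht1 hc hK hi h0 hc' hC hi' h0'

end Pool.Agent.Results.MP_1dedaf_gt.PlanarLogBM
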