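import Pool.Agent.Lib.MP_1dedaf_gt.RF.B
import Pool.Agent.Lib.MP_1dedaf_gt.RG.B

/-!
# The logarithmic Brunn-Minkowski inequality and its equality cases for bodies with the symmetries
of finite reflection groups and centered planar sections
-/

set_option autoImplicit false

open MeasureTheory
open scoped Pointwise

namespace Pool.Agent.Results.MP_1dedaf_gt.ReflectionBlocks

/-- A convex body of `R^n`. -/
structure IsConvexBody {n : ℕ} (K : Set (EuclideanSpace ℝ (Fin n))) : Prop where
  convex : Convex ℝ K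
  compact : IsCompact K
  interior_nonempty : (interior K).Nonempty

/-- The support function `h_K(u) = max {<y, u> : y ∈ K}`. -/
noncomputable def suppFn {n : ℕ} (K : Set (EuclideanSpace ℝ (Fin n)))
    (u : EuclideanSpace ℝ (Fin n)) : ℝ :=
  sSup ((fun y => inner ℝ y u) '' K)

/-- The logarithmic combination
`(1 - t) K +₀ t C = {x : <x, u> ≤ h_K(u)^(1-t) h_C(u)^t for all unit vectors u}`. -/
def logComb {n : ℕ} (t : ℝ) (K C : Set (EuclideanSpace ℝ (Fin n))) :
    Set (EuclideanSpace ℝ (Fin n)) :=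
  {x | ∀ u : EuclideanSpace ℝ (Fin n), ‖u‖ = 1 →
    inner ℝ x u ≤ (suppFn K u) ^ (1 - t) * (suppFn C u) ^ t}

/-- The volume. -/
noncomputable def vol {n : ℕ} (K : Set (EuclideanSpace ℝ (Fin n))) : ℝ := (volume K).toReal

/-- The logarithmic Brunn-Minkowski inequality for `K` and `C`, for all `t` in `(0, 1)`. -/
def LogBM {n : ℕ} (K C : Set (EuclideanSpace ℝ (Fin n))) : Prop :=
  ∀ t : ℝ, 0 < t → t < 1 → vol K ^ (1 - t) * vol C ^ t ≤ vol (logComb t K C)

/-- The equality cases of the question: `K = K_1 + ... + K_m`, `C = C_1 + ... + C_m` with nonempty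
compact convex sets `K_i` of dimension at least one, whose dimensions have the sum `n`, and
dilates `C_i` of `K_i`. -/
def Decomposes {n : ℕ} (K C : Set (EuclideanSpace ℝ (Fin n))) : Prop :=
  ∃ m : ℕ, ∃ Ks Cs : Fin m → Set (EuclideanSpace ℝ (Fin n)),
    (∀ i, Convex ℝ (Ks i) ∧ IsCompact (Ks i) ∧ (Ks i).Nonempty ∧
      1 ≤ Module.finrank ℝ (affineSpan ℝ (Ks i)).direction) ∧
    (∑ i, Module.finrank ℝ (affineSpan ℝ (Ks i)).direction) = n ∧
    K = ∑ i, Ks i ∧ C = ∑ i, Cs i ∧
    (∀ i, ∃ r : ℝ, 0 < r ∧ Cs i = r • Ks i)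

/-- Equality holds (for any `t` in `(0, 1)`) if and only if `K` and `C` decompose as in the
question. -/
def HasEqualityCases {n : ℕ} (K C : Set (EuclideanSpace ℝ (Fin n))) : Prop :=
  ∀ t : ℝ, 0 < t → t < 1 →
    (vol (logComb t K C) = vol K ^ (1 - t) * vol C ^ t ↔ Decomposes K C)

/-- The point `(x, y)` of `R^N × R^d`. -/
def pt {N d : ℕ} (x : EuclideanSpace ℝ (Fin N)) (y : EuclideanSpace ℝ (Fin d)) :
    EuclideanSpace ℝ (Fin (N + d)) :=
  WithLp.toLp 2 (Fin.append x.ofLp y.ofLp)

/-- The section `K(y) = {x ∈ R^N : (x, y) ∈ K}`. -/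
def sectionAt {N d : ℕ} (K : Set (EuclideanSpace ℝ (Fin (N + d))))
    (y : EuclideanSpace ℝ (Fin d)) : Set (EuclideanSpace ℝ (Fin N)) :=
  {x | pt x y ∈ K}

/-- The block bodies over the classes `X` and `Y`: the convex bodies `K` of `R^N × R^d` for which
there is a body `S` of `Y` such that membership of `(x, y)` in `K` depends only on `x` and on the
gauge of `y` with respect to `S`, and whose sections `K(y)` with interior points are in `X`. -/
def BlockBodies {N d : ℕ} (X : Set (EuclideanSpace ℝ (Fin N)) → Prop)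
    (Y : Set (EuclideanSpace ℝ (Fin d)) → Prop) (K : Set (EuclideanSpace ℝ (Fin (N + d)))) : Prop :=
  IsConvexBody K ∧
  (∃ S, Y S ∧ ∀ x y y', gauge S y' = gauge S y → pt x y ∈ K → pt x y' ∈ K) ∧
  ∀ y, (interior (sectionAt K y)).Nonempty → X (sectionAt K y)

/-- The reflection of `R^d` in the hyperplane orthogonal to `β`. -/
noncomputable def reflect {d : ℕ} (β y : EuclideanSpace ℝ (Fin d)) : EuclideanSpace ℝ (Fin d) :=
  y - (2 * inner ℝ y β / inner ℝ β β) • β

/-- `g` is in the group generated by the reflections in the hyperplanes orthogonal to the vectors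
of `B`: `g` is a composition of such reflections. -/
inductive InGroup {d : ℕ} (B : Set (EuclideanSpace ℝ (Fin d))) :
    (EuclideanSpace ℝ (Fin d) → EuclideanSpace ℝ (Fin d)) → Prop
  | one : InGroup B id
  | mul {β : EuclideanSpace ℝ (Fin d)}
      {g : EuclideanSpace ℝ (Fin d) → EuclideanSpace ℝ (Fin d)} :
      β ∈ B → InGroup B g → InGroup B (reflect β ∘ g)

/-- The reflections in the hyperplanes orthogonal to the vectors of `B` generate an irreducible
finite group: there is no invariant linear subspace other than `0` and `R^d`. -/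
structure IsReflectionSystem {d : ℕ} (B : Set (EuclideanSpace ℝ (Fin d))) : Prop where
  ne_zero : ∀ β ∈ B, β ≠ 0
  finite : Set.Finite {g | InGroup B g}
  irreducible : ∀ U : Submodule ℝ (EuclideanSpace ℝ (Fin d)),
    (∀ β ∈ B, ∀ v ∈ U, reflect β v ∈ U) → U = ⊥ ∨ U = ⊤

/-- The convex bodies `K` of `R^N × R^d` which are invariant under the reflections
`(x, y) → (x, reflect β y)`, `β ∈ B`, and whose sections `K(y)` with interior points are in `X`. -/
def ReflectionBodies {N d : ℕ} (X : Set (EuclideanSpace ℝ (Fin N)) → Prop)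
    (B : Set (EuclideanSpace ℝ (Fin d))) (K : Set (EuclideanSpace ℝ (Fin (N + d)))) : Prop :=
  IsConvexBody K ∧ (∀ β ∈ B, ∀ x y, pt x y ∈ K → pt x (reflect β y) ∈ K) ∧
  ∀ y, (interior (sectionAt K y)).Nonempty → X (sectionAt K y)

/-- `IsBlockClass X m k`: the class `X` of bodies of `R^n` is obtained from the point `R^0`, the
symmetric intervals of `R` and the centered convex bodies of `R^2` by block steps, linear bijections
and steps with a finite reflection group of rank at least two; `m` is the number of planar blocks,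
`k` is the number of reflection groups. -/
inductive IsBlockClass : {n : ℕ} → (Set (EuclideanSpace ℝ (Fin n)) → Prop) → ℕ → ℕ → Prop
  | point : IsBlockClass (n := 0) (fun K => IsConvexBody K) 0 0
  | segments : IsBlockClass (n := 1) (fun K => IsConvexBody K ∧ ∀ x ∈ K, -x ∈ K) 0 0
  | planar : IsBlockClass (n := 2) (fun K => IsConvexBody K ∧ ∫ x in K, x = 0) 1 0
  | blocks {N d a b k l : ℕ} (hd : 0 < d) {X : Set (EuclideanSpace ℝ (Fin N)) → Prop}
      {Y : Set (EuclideanSpace ℝ (Fin d)) → Prop} :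
      IsBlockClass X a k → IsBlockClass Y b l → IsBlockClass (BlockBodies X Y) (a + b) (k + l)
  | linear {n a k : ℕ} {X : Set (EuclideanSpace ℝ (Fin n)) → Prop}
      (P : EuclideanSpace ℝ (Fin n) ≃L[ℝ] EuclideanSpace ℝ (Fin n)) :
      IsBlockClass X a k → IsBlockClass (fun K => X (P '' K)) a k
  | reflections {N d a k : ℕ} (hd : 2 ≤ d) {X : Set (EuclideanSpace ℝ (Fin N)) → Prop}
      {B : Set (EuclideanSpace ℝ (Fin d))} (hB : IsReflectionSystem B) :
      IsBlockClass X a k → IsBlockClass (ReflectionBodies X B) a (k + 1)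

private lemma body_of {n : ℕ} {K : Set (EuclideanSpace ℝ (Fin n))} (h : IsConvexBody K) :
    Pool.Agent.Lib.MP_1dedaf_gt.BL.Body K := ⟨h.1, h.2, h.3⟩

private lemma of_body {n : ℕ} {K : Set (EuclideanSpace ℝ (Fin n))}
    (h : Pool.Agent.Lib.MP_1dedaf_gt.BL.Body K) : IsConvexBody K := ⟨h.1, h.2, h.3⟩

private lemma xb_iff {N d : ℕ} {X : Set (EuclideanSpace ℝ (Fin N)) → Prop}
    {Y : Set (EuclideanSpace ℝ (Fin d)) → Prop} {K : Set (EuclideanSpace ℝ (Fin (N + d)))} :
    BlockBodies X Y K ↔ Pool.Agent.Lib.MP_1dedaf_gt.BL.XB X Y K :=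
  ⟨fun h => ⟨body_of h.1, h.2⟩, fun h => ⟨of_body h.1, h.2⟩⟩

private lemma inv_of {N d : ℕ} {B : Set (EuclideanSpace ℝ (Fin d))}
    {K : Set (EuclideanSpace ℝ (Fin (N + d)))}
    (h : ∀ β ∈ B, ∀ x y, pt x y ∈ K → pt x (reflect β y) ∈ K)
    {g : EuclideanSpace ℝ (Fin d) → EuclideanSpace ℝ (Fin d)} (hg : InGroup B g) :
    ∀ x y, pt x y ∈ K → pt x (g y) ∈ K := by
  induction hg with
  | one => exact fun x y hxy => hxy
  | mul hβ _ ih => exact fun x y hxy => h _ hβ x _ (ih x y hxy)

private lemma refl_of {N d : ℕ} (hd : 2 ≤ d) {X : Set (EuclideanSpace ℝ (Fin N)) → Prop}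
    {B : Set (EuclideanSpace ℝ (Fin d))} (h : IsReflectionSystem B)
    (hX : Pool.Agent.Lib.MP_1dedaf_gt.BL.Thm X) :
    Pool.Agent.Lib.MP_1dedaf_gt.BL.Thm (ReflectionBodies (d := d) X B) := by
  obtain ⟨G, α, h1, h2, h3, h4, h5, h6, h7⟩ :=
    Pool.Agent.Lib.MP_1dedaf_gt.RG.exists_group hd h.ne_zero (P := InGroup B) InGroup.one
      (fun β hβ g hg => InGroup.mul hβ hg) h.finite h.irreducible
  exact (Pool.Agent.Lib.MP_1dedaf_gt.RF.thm_XR (G := G) (α := α) (by omega)
    ⟨h1, h2, h3, h4, h5, h6⟩ hX).sub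
      fun K hK => ⟨body_of hK.1, fun g hg => inv_of hK.2.1 (h7 g hg), hK.2.2⟩

private lemma thm_of {n m k : ℕ} {X : Set (EuclideanSpace ℝ (Fin n)) → Prop}
    (h : IsBlockClass X m k) : Pool.Agent.Lib.MP_1dedaf_gt.BL.Thm X := by
  induction h with
  | point => exact Pool.Agent.Lib.MP_1dedaf_gt.RF.thm_pt.sub fun K h => body_of h
  | segments => exact Pool.Agent.Lib.MP_1dedaf_gt.BL.thm_seg.sub fun K h => ⟨body_of h.1, h.2⟩
  | planar => exact Pool.Agent.Lib.MP_1dedaf_gt.BL.thm_pl.sub fun K h => ⟨body_of h.1, h.2⟩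
  | blocks hd _ _ ih₁ ih₂ =>
    exact (Pool.Agent.Lib.MP_1dedaf_gt.BL.thm_XB hd ih₁ ih₂).sub fun K h => xb_iff.1 h
  | linear P _ ih => exact Pool.Agent.Lib.MP_1dedaf_gt.BL.thm_lin ih P
  | reflections hd hB _ ih => exact refl_of hd hB ih

/-- **Theorem.** The logarithmic Brunn-Minkowski inequality and the equality cases of the question
hold for all pairs of bodies of the same block class with at least one planar block and at least
one reflection group: for instance for all pairs of convex bodies of `R^2 × R^d` which are symmetric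
with respect to reflections `(x, y) → (x, reflect β y)`, `β ∈ B`, that generate an irreducible
finite group (the symmetries of a regular simplex or polygon, say), and all whose sections parallel
to `R^2` (with interior points) are centered. -/
theorem result :
    ∀ (n m k : ℕ) (X : Set (EuclideanSpace ℝ (Fin n)) → Prop), IsBlockClass X m k → 1 ≤ m → 1 ≤ k →
      ∀ K C, X K → X C → LogBM K C ∧ HasEqualityCases K C := by
  intro n m k X hX _ _ K C hK hC
  have hT := thm_of hX
  exact ⟨fun t ht0 ht1 => (Pool.Agent.Lib.MP_1dedaf_gt.BL.eq_iff_thm hT ht0 ht1 hK hC).1,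
    fun t ht0 ht1 => (Pool.Agent.Lib.MP_1dedaf_gt.BL.eq_iff_thm hT ht0 ht1 hK hC).2⟩

end Pool.Agent.Results.MP_1dedaf_gt.ReflectionBlocks
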